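import Mathlib

/-!
# The local loop lemma for odd cycles under absorption

Let `R` be a symmetric binary relation on `A` containing an odd cycle `(a_1, ..., a_l)`, and let
`f : A ^ n → A` be an idempotent operation compatible with `R` such that the neighbourhood of `a_1`
absorbs `{a_1}` with respect to `f`.  Then `R` has a loop.

Outline.  Write `F_k x u c = f (x, ..., x, u, c, ..., c)` (`k` copies of `x`).  These are ternary
idempotent operations compatible with `R`, with `F_k x x c = F_{k+1} x c c`, and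
`F_k x a c` is a neighbour of `a` when `x` and `c` are.  One shows by induction on `k` that there are
`z` and `x = F_k z a a` with `x` adjacent to `z` (and `x` connected to `a`).  For `k = n` this is a
loop.  The induction step is `main_step`: it uses a fixed point of a causal operator acting on
walks starting in `a`.
-/

namespace Pool.Agent.Results.MP_511665_al.LocalLoop

variable {A : Type*}

/-- The alternating two-sided sequence `..., b, a, b, a, ...` with value `a` at `0`. -/
def alt (a b : A) (i : ℤ) : A := if Even i then a else b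

/-- `W` is a walk on the indices `i ≤ r`, alternating between `a` and `b` on the indices `i ≤ 0`. -/
structure IsW (R : A → A → Prop) (a b : A) (r : ℤ) (W : ℤ → A) : Prop where
  step : ∀ i, i < r → R (W i) (W (i + 1))
  neg : ∀ i, i ≤ 0 → W i = alt a b i

theorem alt_step {R : A → A → Prop} {a b : A} (hab : R a b) (hba : R b a) (i : ℤ) :
    R (alt a b i) (alt a b (i + 1)) := by
  unfold alt
  by_cases h : Even i
  · have h' : ¬ Even (i + 1) := by
      rw [Int.not_even_iff_odd]; exact h.add_one
    rw [if_pos h, if_neg h']; exact hab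
  · have h' : Even (i + 1) := by
      rw [Int.not_even_iff_odd] at h; exact h.add_one
    rw [if_neg h, if_pos h']; exact hba

/-- Combine three sequences with `F`, resetting to the alternating sequence on `i ≤ 0`. -/
def Phi (F : A → A → A → A) (a b : A) (W V C : ℤ → A) : ℤ → A :=
  fun i => if i ≤ 0 then alt a b i else F (W i) (V i) (C i)

theorem Phi_isW {R : A → A → Prop} {a b : A} (hab : R a b) (hba : R b a) {F : A → A → A → A}
    (hF : ∀ x x' u u' c c', R x x' → R u u' → R c c' → R (F x u c) (F x' u' c'))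
    (hid : F a a a = a) (habs : ∀ x c, R a x → R a c → R a (F x a c))
    {r : ℤ} (_hr : 1 ≤ r) {W V C : ℤ → A} (hW : IsW R a b r W) (hC : IsW R a b r C)
    (hV : ∀ i, i < r → R (V i) (V (i + 1))) (hV1 : V 1 = a ∨ V 1 = b) :
    IsW R a b r (Phi F a b W V C) := by
  refine ⟨fun i hi => ?_, fun i hi => by simp [Phi, hi]⟩
  rcases lt_trichotomy i 0 with h | h | h
  · have h1 : i ≤ 0 := by omega
    have h2 : i + 1 ≤ 0 := by omega
    simp only [Phi, if_pos h1, if_pos h2]
    exact alt_step hab hba i
  · subst h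
    have hW1 : R a (W 1) := by
      have := hW.step 0 (by omega)
      rw [hW.neg 0 le_rfl] at this
      simpa [alt] using this
    have hC1 : R a (C 1) := by
      have := hC.step 0 (by omega)
      rw [hC.neg 0 le_rfl] at this
      simpa [alt] using this
    have h1 : ¬ ((0 : ℤ) + 1 ≤ 0) := by omega
    simp only [Phi, if_pos le_rfl, if_neg h1]
    have e : alt a b 0 = a := by simp [alt]
    rw [e, zero_add]
    rcases hV1 with h | h
    · rw [h]; exact habs _ _ hW1 hC1
    · rw [h]
      have := hF a (W 1) a b a (C 1) hW1 hab hC1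
      rwa [hid] at this
  · have h1 : ¬ (i ≤ 0) := by omega
    have h2 : ¬ (i + 1 ≤ 0) := by omega
    simp only [Phi, if_neg h1, if_neg h2]
    exact hF _ _ _ _ _ _ (hW.step i hi) (hV i hi) (hC.step i hi)

/-- The sequence of walks used in the induction step, depending on a parameter walk `U`. -/
def Xs (F : A → A → A → A) (a b : A) (r : ℕ) (X0 : ℤ → A) (C : ℕ → ℤ → A) (U : ℤ → A) :
    ℕ → ℤ → A
  | 0 => X0
  | m + 1 => Phi F a b (Xs F a b r X0 C U m) (fun i => U (i - ((r : ℤ) - ((m : ℤ) + 1)))) (C (m + 1))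

theorem alt_cases (a b : A) (i : ℤ) : alt a b i = a ∨ alt a b i = b := by
  unfold alt
  by_cases h : Even i
  · left; simp [h]
  · right; simp [h]

theorem Xs_isW {R : A → A → Prop} {a b : A} (hab : R a b) (hba : R b a) {F : A → A → A → A}
    (hF : ∀ x x' u u' c c', R x x' → R u u' → R c c' → R (F x u c) (F x' u' c'))
    (hid : F a a a = a) (habs : ∀ x c, R a x → R a c → R a (F x a c))
    {r : ℕ} (hr : 1 ≤ r) {X0 U : ℤ → A} {C : ℕ → ℤ → A} (hX0 : IsW R a b r X0)
    (hU : IsW R a b r U) (hC : ∀ m, IsW R a b r (C m)) (m : ℕ) (hm : m + 1 ≤ r) :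
    IsW R a b r (Xs F a b r X0 C U m) := by
  induction m with
  | zero => exact hX0
  | succ m ih =>
    have ih' := ih (by omega)
    refine Phi_isW hab hba hF hid habs (by exact_mod_cast hr) ih' (hC _) (fun i hi => ?_) ?_
    · have := hU.step (i - ((r : ℤ) - ((m : ℤ) + 1))) (by omega)
      have e : i - ((r : ℤ) - ((m : ℤ) + 1)) + 1 = i + 1 - ((r : ℤ) - ((m : ℤ) + 1)) := by ring
      rw [e] at this
      exact this
    · have : U (1 - ((r : ℤ) - ((m : ℤ) + 1))) = alt a b (1 - ((r : ℤ) - ((m : ℤ) + 1))) :=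
        hU.neg _ (by omega)
      simp only [this]
      exact alt_cases a b _

theorem Xs_agree {a b : A} {F : A → A → A → A} {r : ℕ} {X0 U U' : ℤ → A} {C : ℕ → ℤ → A}
    {t : ℤ} (h : ∀ i, i ≤ t → U i = U' i) (m : ℕ) (hm : m + 1 ≤ r) :
    ∀ i, i ≤ t + 1 → Xs F a b r X0 C U m i = Xs F a b r X0 C U' m i := by
  induction m with
  | zero => intro i _; rfl
  | succ m ih =>
    intro i hi
    have ih' := ih (by omega) i hi
    have h' : U (i - ((r : ℤ) - ((m : ℤ) + 1))) = U' (i - ((r : ℤ) - ((m : ℤ) + 1))) :=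
      h _ (by omega)
    simp only [Xs, Phi, ih', h']

/-- The causal operator has a fixed point on the indices `≤ r`. -/
theorem exists_fix {R : A → A → Prop} {a b : A} (hab : R a b) (hba : R b a) {F : A → A → A → A}
    (hF : ∀ x x' u u' c c', R x x' → R u u' → R c c' → R (F x u c) (F x' u' c'))
    (hid : F a a a = a) (habs : ∀ x c, R a x → R a c → R a (F x a c))
    {r : ℕ} (hr : 1 ≤ r) {X0 : ℤ → A} {C : ℕ → ℤ → A} (hX0 : IsW R a b r X0)
    (hC : ∀ m, IsW R a b r (C m)) :
    ∃ U, IsW R a b r U ∧ ∀ i, i ≤ (r : ℤ) → Xs F a b r X0 C U (r - 1) i = U i := by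
  have key : ∀ t : ℕ, ∃ U, IsW R a b r U ∧
      ∀ i, i ≤ (t : ℤ) → Xs F a b r X0 C U (r - 1) i = U i := by
    intro t
    induction t with
    | zero =>
      refine ⟨X0, hX0, fun i hi => ?_⟩
      have h1 := Xs_isW hab hba hF hid habs hr hX0 hX0 hC (r - 1) (by omega)
      rw [h1.neg i (by simpa using hi), hX0.neg i (by simpa using hi)]
    | succ t ih =>
      obtain ⟨U, hU, hfix⟩ := ih
      refine ⟨Xs F a b r X0 C U (r - 1), Xs_isW hab hba hF hid habs hr hX0 hU hC (r - 1) (by omega),
        fun i hi => ?_⟩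
      exact Xs_agree (t := t) (fun i hi => hfix i hi) (r - 1) (by omega) i (by push_cast at hi; exact hi)
  exact key r

/-- Walks of length `r` starting in `a`. -/
def B (R : A → A → Prop) (a : A) : ℕ → A → Prop
  | 0, y => y = a
  | r + 1, y => ∃ z, B R a r z ∧ R z y

theorem exists_isW {R : A → A → Prop} {a b : A} (hab : R a b) (hba : R b a) :
    ∀ (r : ℕ) (y : A), B R a r y → ∃ W, IsW R a b r W ∧ W r = y := by
  intro r
  induction r with
  | zero =>
    intro y hy
    refine ⟨alt a b, ⟨fun i _ => alt_step hab hba i, fun i _ => rfl⟩, ?_⟩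
    simp only [B] at hy
    simp [alt, hy]
  | succ r ih =>
    rintro y ⟨z, hz, hzy⟩
    obtain ⟨W, hW, hWr⟩ := ih z hz
    refine ⟨Function.update W ((r : ℤ) + 1) y, ⟨fun i hi => ?_, fun i hi => ?_⟩, ?_⟩
    · push_cast at hi
      rcases lt_or_eq_of_le (show i ≤ (r : ℤ) by omega) with h | h
      · have h1 : i ≠ (r : ℤ) + 1 := by omega
        have h2 : i + 1 ≠ (r : ℤ) + 1 := by omega
        rw [Function.update_of_ne h1, Function.update_of_ne h2]
        exact hW.step i h
      · subst h
        have h1 : (r : ℤ) ≠ (r : ℤ) + 1 := by omega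
        rw [Function.update_of_ne h1, Function.update_self, hWr]
        exact hzy
    · have h1 : i ≠ (r : ℤ) + 1 := by omega
      rw [Function.update_of_ne h1]
      exact hW.neg i hi
    · push_cast
      rw [Function.update_self]

theorem B_of_isW {R : A → A → Prop} {a b : A} {r : ℤ} {W : ℤ → A} (hW : IsW R a b r W) :
    ∀ s : ℕ, (s : ℤ) ≤ r → B R a s (W s) := by
  intro s
  induction s with
  | zero =>
    intro _
    have := hW.neg 0 le_rfl
    simp only [B, Nat.cast_zero, this]
    simp [alt]
  | succ s ih =>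
    intro hs
    push_cast at hs ⊢
    exact ⟨W s, ih (by omega), hW.step s (by omega)⟩

theorem B_add_two {R : A → A → Prop} (hs : ∀ x y, R x y → R y x) {a b : A} (hab : R a b) :
    ∀ (s : ℕ) (y : A), B R a s y → B R a (s + 2) y := by
  intro s
  induction s with
  | zero =>
    intro y hy
    simp only [B] at hy
    subst hy
    exact ⟨b, ⟨_, rfl, hab⟩, hs _ _ hab⟩
  | succ s ih =>
    rintro y ⟨z, hz, hzy⟩
    exact ⟨z, ih z hz, hzy⟩

theorem B_add {R : A → A → Prop} {a : A} {l : ℕ} (hl : B R a l a) :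
    ∀ (s : ℕ) (y : A), B R a s y → B R a (s + l) y := by
  intro s
  induction s with
  | zero =>
    intro y hy
    simp only [B] at hy
    subst hy
    simpa using hl
  | succ s ih =>
    rintro y ⟨z, hz, hzy⟩
    have : s + 1 + l = (s + l) + 1 := by ring
    rw [this]
    exact ⟨z, ih z hz, hzy⟩

theorem B_add_two_mul {R : A → A → Prop} (hs : ∀ x y, R x y → R y x) {a b : A} (hab : R a b)
    (s : ℕ) (y : A) (hy : B R a s y) (t : ℕ) : B R a (s + 2 * t) y := by
  induction t with
  | zero => simpa using hy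
  | succ t ih =>
    have : s + 2 * (t + 1) = (s + 2 * t) + 2 := by ring
    rw [this]
    exact B_add_two hs hab _ _ ih

/-- If there is a closed walk of odd length at `a`, every vertex reachable by a walk of length `s`
is reachable by a walk of any even length `≥ s + l`. -/
theorem B_even {R : A → A → Prop} (hs : ∀ x y, R x y → R y x) {a b : A} (hab : R a b) {l : ℕ}
    (hlo : Odd l) (hl : B R a l a) (s : ℕ) (y : A) (hy : B R a s y) (r : ℕ) (hr : Even r)
    (hle : s + l ≤ r) : B R a r y := by
  rcases Nat.even_or_odd s with h | h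
  · obtain ⟨t, ht⟩ : ∃ t, r = s + 2 * t := by
      obtain ⟨p, hp⟩ := hr
      obtain ⟨q, hq⟩ := h
      exact ⟨p - q, by omega⟩
    rw [ht]
    exact B_add_two_mul hs hab s y hy t
  · obtain ⟨t, ht⟩ : ∃ t, r = (s + l) + 2 * t := by
      obtain ⟨p, hp⟩ := hr
      obtain ⟨q, hq⟩ := h
      obtain ⟨q', hq'⟩ := hlo
      exact ⟨p - q - q' - 1, by omega⟩
    rw [ht]
    exact B_add_two_mul hs hab (s + l) y (B_add hl s y hy) t

/-- The induction step. -/
theorem main_step {R : A → A → Prop} (hs : ∀ x y, R x y → R y x) {a b : A} (hab : R a b) {l : ℕ}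
    (hlo : Odd l) (hl : B R a l a) {F : A → A → A → A}
    (hF : ∀ x x' u u' c c', R x x' → R u u' → R c c' → R (F x u c) (F x' u' c'))
    (hid : F a a a = a) (habs : ∀ x c, R a x → R a c → R a (F x a c))
    {z : A} (hz : R (F z a a) z) {s : ℕ} (hsx : B R a s (F z a a)) :
    ∃ z' s', R (F z' z' a) z' ∧ B R a s' (F z' z' a) := by
  have hba := hs _ _ hab
  -- choose an even length `r`
  obtain ⟨r, hr2, hre, hrs⟩ : ∃ r : ℕ, 2 ≤ r ∧ Even r ∧ s + 1 + l ≤ r :=
    ⟨2 * (s + l + 1), by omega, even_two_mul _, by omega⟩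
  obtain ⟨X0, hX0, hX0r⟩ := exists_isW hab hba r _
    (B_even hs hab hlo hl s _ hsx r hre (by omega))
  obtain ⟨Ca, hCa, hCar⟩ := exists_isW hab hba r a
    (B_even hs hab hlo hl 0 a rfl r hre (by omega))
  obtain ⟨Cb, hCb, hCbr⟩ := exists_isW hab hba r b
    (B_even hs hab hlo hl 1 b ⟨a, rfl, hab⟩ r hre (by omega))
  set C : ℕ → ℤ → A := fun m => if Even m then Ca else Cb with hCdef
  have hC : ∀ m, IsW R a b r (C m) := by
    intro m
    by_cases h : Even m
    · simpa [hCdef, h] using hCa
    · simpa [hCdef, h] using hCb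
  have hCr : ∀ m : ℕ, C m r = alt a b m := by
    intro m
    by_cases h : Even m
    · have h' : Even (m : ℤ) := by exact_mod_cast h
      simp [hCdef, h, h', alt, hCar]
    · have h' : ¬ Even (m : ℤ) := by exact_mod_cast h
      simp only [hCdef, alt, if_neg h, if_neg h', hCbr]
  obtain ⟨U, hU, hfix⟩ := exists_fix hab hba hF hid habs (show 1 ≤ r by omega) hX0 hC
  -- the sequence of endpoints
  set x : ℕ → A := fun m => Xs F a b r X0 C U m r with hx
  have hx0 : x 0 = F z a a := by simp [hx, Xs, hX0r]
  have hxs : ∀ m : ℕ, x (m + 1) = F (x m) (U ((m : ℤ) + 1)) (alt a b ((m + 1 : ℕ) : ℤ)) := by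
    intro m
    have h1 : ¬ ((r : ℤ) ≤ 0) := by omega
    have h2 : (r : ℤ) - ((r : ℤ) - ((m : ℤ) + 1)) = (m : ℤ) + 1 := by ring
    simp only [hx, Xs, Phi, if_neg h1, h2, hCr]
  have hstep : ∀ m : ℕ, m + 1 ≤ r → R (x (m + 1)) (x m) := by
    intro m
    induction m with
    | zero =>
      intro _
      rw [hxs 0, hx0]
      have hU0 : U 0 = a := by rw [hU.neg 0 le_rfl]; simp [alt]
      have hU1 : R (U ((0 : ℕ) + 1 : ℤ)) a := by
        have := hU.step 0 (by omega)
        rw [hU0] at this
        simpa using hs _ _ this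
      refine hF _ _ _ _ _ _ hz hU1 ?_
      have := hs _ _ (alt_step hab hba 0)
      simpa [alt] using this
    | succ m ih =>
      intro hm
      rw [hxs (m + 1)]
      conv_rhs => rw [hxs m]
      refine hF _ _ _ _ _ _ (ih (by omega)) ?_ ?_
      · have := hU.step ((m : ℤ) + 1) (by omega)
        push_cast
        exact hs _ _ this
      · have := alt_step hab hba ((m + 1 : ℕ) : ℤ)
        push_cast at this ⊢
        exact hs _ _ this
  have hxr : x (r - 1) = U r := by
    have := hfix r le_rfl
    simpa [hx] using this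
  obtain ⟨q, hq⟩ : ∃ q, r = q + 2 := ⟨r - 2, by omega⟩
  have hq1 : r - 1 = q + 1 := by omega
  have hxq : x (q + 1) = U r := by rw [← hq1]; exact hxr
  have hUr : R (U r) (U ((q : ℤ) + 1)) := by
    have := hU.step ((q : ℤ) + 1) (by omega)
    have e : (q : ℤ) + 1 + 1 = (r : ℤ) := by omega
    rw [e] at this
    exact hs _ _ this
  have haltr : alt a b (r : ℤ) = a := by
    have : Even (r : ℤ) := by exact_mod_cast hre
    simp [alt, this]
  have hfin : R (F (x (q + 1)) (x (q + 1)) a) (x (q + 1)) := by
    conv_rhs => rw [hxs q]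
    refine hF _ _ _ _ _ _ (hstep q (by omega)) ?_ ?_
    · rw [hxq]; exact hUr
    · have := alt_step hab hba ((q + 1 : ℕ) : ℤ)
      have e : (((q + 1 : ℕ) : ℤ)) + 1 = (r : ℤ) := by push_cast; omega
      rw [e, haltr] at this
      exact hs _ _ this
  refine ⟨x (q + 1), r + 1, hfin, U r, B_of_isW hU r le_rfl, ?_⟩
  have := hs _ _ hfin
  rw [hxq] at this ⊢
  exact this

/-- **Local loop lemma for odd cycles under absorption** (positive answer to Q1).
The odd cycle is `(a 1, a 2, ..., a l)`; the values of `a` outside `1, ..., l` play no role. -/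
theorem result {A : Type*} (R : A → A → Prop) (hsymm : ∀ x y, R x y → R y x)
    -- an odd cycle `(a 1, a 2, ..., a l)` of `R`
    (l : ℕ) (_hl : 3 ≤ l) (hodd : Odd l) (a : ℕ → A)
    (_hinj : ∀ i j, 1 ≤ i → i ≤ l → 1 ≤ j → j ≤ l → a i = a j → i = j)
    (hcycle : ∀ i, 1 ≤ i → i < l → R (a i) (a (i + 1)))
    (hclose : R (a l) (a 1))
    -- an idempotent operation of arity `n ≥ 1` compatible with `R`
    (n : ℕ) (_hn : 1 ≤ n) (f : (Fin n → A) → A)
    (hidem : ∀ x : A, f (fun _ => x) = x)
    (hcomp : ∀ x y : Fin n → A, (∀ i, R (x i) (y i)) → R (f x) (f y))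
    -- the neighbourhood of `a 1` absorbs `{a 1}` with respect to `f`
    (habs' : ∀ (j : Fin n) (b : Fin n → A), (∀ i, R (a 1) (b i)) →
      R (a 1) (f (Function.update b j (a 1)))) :
    ∃ x, R x x := by
  obtain ⟨a', ha'⟩ : ∃ a', a' = a 1 := ⟨_, rfl⟩
  obtain ⟨b, hb⟩ : ∃ b, b = a 2 := ⟨_, rfl⟩
  have hab : R a' b := by rw [ha', hb]; exact hcycle 1 le_rfl (by omega)
  have habs : ∀ (j : Fin n) (b : Fin n → A), (∀ i, R a' (b i)) →
      R a' (f (Function.update b j a')) := by rw [ha']; exact habs'
  have hl' : B R a' l a' := by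
    have key : ∀ i : ℕ, i < l → B R a' i (a (i + 1)) := by
      intro i
      induction i with
      | zero => intro _; exact ha'.symm
      | succ i ih => intro h; exact ⟨_, ih (by omega), hcycle (i + 1) (by omega) h⟩
    obtain ⟨p, hp⟩ : ∃ p, l = p + 1 := ⟨l - 1, by omega⟩
    have h1 := key p (by omega)
    rw [← hp] at h1
    rw [hp]
    exact ⟨_, h1, by rw [ha']; exact hclose⟩
  clear hcycle hclose habs' ha' hb _hinj
  clear a
  rename' a' => a
  -- the ternary operations
  set F : ℕ → A → A → A → A := fun k x u c =>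
    f (fun i : Fin n => if (i : ℕ) < k then x else if (i : ℕ) = k then u else c) with hFdef
  have hF : ∀ k x x' u u' c c', R x x' → R u u' → R c c' → R (F k x u c) (F k x' u' c') := by
    intro k x x' u u' c c' h1 h2 h3
    refine hcomp _ _ (fun i => ?_)
    by_cases hi : (i : ℕ) < k
    · simpa [hi] using h1
    · by_cases hi' : (i : ℕ) = k
      · simpa [hi, hi'] using h2
      · simpa [hi, hi'] using h3
  have hFid : ∀ k, F k a a a = a := by
    intro k
    simp only [hFdef, ite_self]
    exact hidem a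
  have hFabs : ∀ k, k < n → ∀ x c, R a x → R a c → R a (F k x a c) := by
    intro k hk x c hx hc
    have h := habs ⟨k, hk⟩ (fun i : Fin n => if (i : ℕ) < k then x else c) (fun i => by
      by_cases hi : (i : ℕ) < k
      · simpa [hi] using hx
      · simpa [hi] using hc)
    have e : (Function.update (fun i : Fin n => if (i : ℕ) < k then x else c) ⟨k, hk⟩ a)
        = (fun i : Fin n => if (i : ℕ) < k then x else if (i : ℕ) = k then a else c) := by
      funext i
      by_cases hi : i = ⟨k, hk⟩
      · subst hi; simp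
      · have hi' : (i : ℕ) ≠ k := fun h => hi (Fin.ext h)
        rw [Function.update_of_ne hi]
        simp [hi']
    rw [e] at h
    exact h
  have hFF : ∀ k x c, F k x x c = F (k + 1) x c c := by
    intro k x c
    simp only [hFdef]
    congr 1
    funext i
    by_cases hi : (i : ℕ) < k
    · have : (i : ℕ) < k + 1 := by omega
      simp [hi, this]
    · by_cases hi' : (i : ℕ) = k
      · simp [hi']
      · have : ¬ (i : ℕ) < k + 1 := by omega
        simp [hi, hi', this]
  have main : ∀ k, k ≤ n → ∃ z s, R (F k z a a) z ∧ B R a s (F k z a a) := by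
    intro k
    induction k with
    | zero =>
      intro _
      have e : F 0 b a a = a := by
        simp only [hFdef, Nat.not_lt_zero, if_false, ite_self]
        exact hidem a
      exact ⟨b, 0, by rw [e]; exact hab, by rw [e]; rfl⟩
    | succ k ih =>
      intro hk
      obtain ⟨z, s, hz, hsz⟩ := ih (by omega)
      obtain ⟨z', s', h1, h2⟩ := main_step hsymm hab hodd hl' (hF k) (hFid k)
        (hFabs k (by omega)) hz hsz
      rw [hFF] at h1 h2
      exact ⟨z', s', h1, h2⟩
  obtain ⟨z, _, hz, _⟩ := main n le_rfl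
  have e : F n z a a = z := by
    have : (fun i : Fin n => if (i : ℕ) < n then z else if (i : ℕ) = n then a else a)
        = (fun _ => z) := by
      funext i
      simp [i.isLt]
    simp only [hFdef]
    rw [this]
    exact hidem z
  rw [e] at hz
  exact ⟨z, hz⟩

end Pool.Agent.Results.MP_511665_al.LocalLoop
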